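import Pool.Agent.H55.HM.G

/-!
# Level 0 of Hensel minimality agrees with all other levels over tame value groups

Levels are elements of `ℕ∞`, with `⊤` standing for `ω`. The definitions of h-minimality are in
`Pool.Agent.R611.HM.Def`; those of `LocTransl` and `DefComplete` are in `Pool.Agent.H55.HM.E` and
`Pool.Agent.H55.HM.F`.
-/

set_option autoImplicit false

namespace Pool.Agent.Results.MP_0e4269_lc.LevelZero

open FirstOrder Language Pool.Agent.R611.HM Pool.Agent.H55.HM

universe u

/-- Every nonempty set of values with a nonzero lower bound has a greatest lower bound. -/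
def CondComplete {K : Type u} [Field K] (O : ValuationSubring K) : Prop :=
  ∀ S : Set O.ValueGroup, S.Nonempty → (∃ γ, γ ≠ 0 ∧ γ ∈ lowerBounds S) → ∃ γ, IsGLB S γ

/-- The condition on the value groups of the models of `T`: in all models the value group is
definably complete or has no locally translating maps other than translations, or `T` is complete
and has a model with a conditionally complete value group. -/
def TameValues {L : FirstOrder.Language.{u, u}} (sy : ValSymbols L) (T : L.Theory) : Prop :=
  (∀ (K : Type u) [L.Structure K] [Field K] (O : ValuationSubring K), K ⊨ T → IsValued sy O →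
    DefComplete L O ∨ LocTransl L O) ∨
  (T.IsComplete ∧ ∃ (K : Type u) (_ : L.Structure K) (_ : Field K) (O : ValuationSubring K),
    K ⊨ T ∧ IsValued sy O ∧ CondComplete O)

/-- For theories of valued fields of equicharacteristic zero with tame value groups, all levels
`0, 1, 2, 3, …, ω` of h-minimality are equivalent. -/
theorem result : ∀ (L : FirstOrder.Language.{u, u}) (sy : ValSymbols L) (T : L.Theory),
    IsValuedTheory sy T → TameValues sy T → ∀ s t : ℕ∞, (HMin sy T s ↔ HMin sy T t) := by
  intro L sy T hT hta
  have hLT : ∀ (K : Type u) [L.Structure K] [Field K] (O : ValuationSubring K), K ⊨ T →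
      IsValued sy O → LocTransl L O := by
    intro K _ _ O hK hv
    rcases hta with h | ⟨hc, K₀, _, _, O₀, h0, hv0, hcc⟩
    · rcases h K O hK hv with h | h
      · exact h.locTransl hv
      · exact h
    · exact (defComplete_of hc h0 hv0 hcc hK hv).locTransl hv
  have key : ∀ s t : ℕ∞, HMin sy T s → HMin sy T t := fun s t h =>
    Pool.Agent.H55.HM.main hT hLT (h.mono bot_le) t
  exact fun s t => ⟨key s t, key t s⟩

end Pool.Agent.Results.MP_0e4269_lc.LevelZero
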